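import Pool.Agent.H.MP_d8e3a9_al.Loops

/-!
The trivial subgroup is not tame in Thompson's group `F` with respect to the infinite
presentation `⟨x₀, x₁, … ∣ x_k⁻¹ x_n x_k = x_{n+1} (k < n)⟩`.

The subcomplex `C` consists of the two vertices `1` and `x₀`.  The open edge from `1` to `x₀`
lies in the complement of `C`, and it is a face of infinitely many 2-cells; each of them gives
a map of its component to the circle, and these maps show that the fundamental group is not
finitely generated.
-/

namespace Pool.Agent.Results.MP_d8e3a9_al.NotTame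

open Pool.Agent.H.MP_d8e3a9_al

theorem result : ∃ C : Set Cay, IsFiniteSubcomplex C ∧ ∃ (p : Cay) (hp : p ∈ Cᶜ),
    ¬ Group.FG (FundamentalGroup (connectedComponentIn Cᶜ p)
      ⟨p, mem_connectedComponentIn hp⟩) :=
  ⟨C0, isFiniteSubcomplex_C0, mid 1 0, mid_mem, not_fg⟩

end Pool.Agent.Results.MP_d8e3a9_al.NotTame
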