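import Pool.Agent.H.MP_d8e3a9_al.Push3

/-!
Outside a finite subcomplex, the subcomplex of the Cayley 2-complex of Thompson's group `F` for the
presentation `⟨x₀, x₁, … ∣ x_k⁻¹ x_n x_k = x_{n+1} (k < n)⟩` is connected and simply connected.
-/

set_option autoImplicit false

namespace Pool.Agent.Results.MP_d8e3a9_al.TameSubcomplex

open Pool.Agent.H.MP_d8e3a9_al

theorem result : ∀ C : Set F, C.Finite →
    (∀ g h : F, g ∉ C → h ∉ C → ∃ w : Word, Avoids C g w ∧ g * val w = h) ∧
      ∀ (g : F) (w : Word), Avoids C g w → g * val w = g → Homotopic C g w [] :=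
  tame_full

end Pool.Agent.Results.MP_d8e3a9_al.TameSubcomplex
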